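import Pool.Agent.Q44.JQ.StmB
import Pool.Agent.Q269.SL.Cl1
import Pool.Agent.Q269.SL.Prb

/-!
# Laws on vectors, lower bounds for all sets of vectors
-/

set_option autoImplicit false
set_option linter.unusedSectionVars false

open scoped Classical Topology

namespace Q44.JQ.M

open Finset Filter
open Q44.JQ

theorem lawc_eq' (c : ZMod 2) (e : ℕ) : lawc c e = Pool.Agent.Q269.SL.lawc c e := by
  rw [Pool.Agent.Q269.SL.lawc_eq]
  rfl

theorem lawc_nonneg (c : ZMod 2) (e : ℕ) : 0 ≤ lawc c e := by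
  rw [lawc_eq']
  exact Pool.Agent.Q269.SL.lawc_nonneg c e

theorem hasSum_lawc (c : ZMod 2) : HasSum (fun e => lawc c e) 1 := by
  have h := Pool.Agent.Q269.SL.hasSum_lawc c
  have e : (fun e => lawc c e) = Pool.Agent.Q269.SL.lawc c := funext fun e => lawc_eq' c e
  rw [e]
  exact h

section prod

variable {J : Type} [Fintype J]

theorem box_prod (f : J → ℕ → ℝ) (M : ℕ) :
    ∑ e ∈ Fintype.piFinset (fun _ : J => range M), ∏ j, f j (e j) = ∏ j, ∑ i ∈ range M, f j i :=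
  (Finset.prod_univ_sum (fun _ : J => range M) f).symm

theorem hasSum_prod {f : J → ℕ → ℝ} (h0 : ∀ j e, 0 ≤ f j e) (h1 : ∀ j, HasSum (f j) 1) :
    HasSum (fun e : J → ℕ => ∏ j, f j (e j)) 1 := by
  have hnn : ∀ e : J → ℕ, 0 ≤ ∏ j, f j (e j) := fun e => prod_nonneg fun j _ => h0 j _
  have hbox : ∀ S : Finset (J → ℕ), ∃ M, S ⊆ Fintype.piFinset (fun _ : J => range M) := by
    intro S
    refine ⟨∑ e ∈ S, ∑ j, (e j + 1), fun e he => ?_⟩
    rw [Fintype.mem_piFinset]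
    intro j
    rw [mem_range]
    have h1 := single_le_sum (f := fun e : J → ℕ => ∑ j, (e j + 1)) (fun _ _ => Nat.zero_le _) he
    have h2 := single_le_sum (f := fun j => e j + 1) (fun _ _ => Nat.zero_le _) (mem_univ j)
    have h3 : e j + 1 ≤ ∑ j, (e j + 1) := h2
    exact lt_of_lt_of_le (Nat.lt_succ_self _) (h3.trans h1)
  have hs : Summable (fun e : J → ℕ => ∏ j, f j (e j)) := by
    refine summable_of_sum_le (c := 1) hnn fun S => ?_
    obtain ⟨M, hM⟩ := hbox S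
    refine (sum_le_sum_of_subset_of_nonneg hM fun _ _ _ => hnn _).trans ?_
    rw [box_prod]
    refine prod_le_one (fun j _ => sum_nonneg fun _ _ => h0 j _) fun j _ => ?_
    exact sum_le_hasSum _ (fun _ _ => h0 j _) (h1 j)
  have h2 : Tendsto (fun M : ℕ => ∑ e ∈ Fintype.piFinset (fun _ : J => range M),
      ∏ j, f j (e j)) atTop (𝓝 (∑' e : J → ℕ, ∏ j, f j (e j))) := by
    refine hs.hasSum.comp ?_
    apply tendsto_atTop_finset_of_monotone
    · intro M M' h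
      exact Fintype.piFinset_subset _ _ fun _ => range_mono h
    · intro e
      obtain ⟨M, hM⟩ := hbox {e}
      exact ⟨M, hM (mem_singleton_self e)⟩
  have h3 : Tendsto (fun M : ℕ => ∑ e ∈ Fintype.piFinset (fun _ : J => range M),
      ∏ j, f j (e j)) atTop (𝓝 1) := by
    simp only [box_prod]
    have h4 := tendsto_finsetProd (univ : Finset J) fun j _ => (h1 j).tendsto_sum_nat
    rwa [prod_const_one] at h4
  rw [← tendsto_nhds_unique h2 h3]
  exact hs.hasSum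

end prod

section lawM

variable {κ μ : Type} [Fintype κ] [Fintype μ]

/-- the law -/
noncomputable def lawM (r : κ × μ → ℕ) : ℝ :=
  ∏ k, ((∏ i, lawc 0 (r (k, i))) + ∏ i, lawc 1 (r (k, i))) / 2

theorem lawM_nonneg (r : κ × μ → ℕ) : 0 ≤ lawM r :=
  prod_nonneg fun k _ => div_nonneg (add_nonneg (prod_nonneg fun i _ => lawc_nonneg _ _)
    (prod_nonneg fun i _ => lawc_nonneg _ _)) (by norm_num)

theorem lawM_eq (r : κ × μ → ℕ) : lawM r =
    ∑ c : κ → ZMod 2, (1 / 2 : ℝ) ^ Fintype.card κ * ∏ j : κ × μ, lawc (c j.1) (r j) := by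
  have h1 : ∀ k, ((∏ i, lawc 0 (r (k, i))) + ∏ i, lawc 1 (r (k, i))) / 2 =
      ∑ c : ZMod 2, (1 / 2 : ℝ) * ∏ i, lawc c (r (k, i)) := by
    intro k
    have h2 : (univ : Finset (ZMod 2)) = {0, 1} := by decide
    rw [h2, sum_pair (by decide)]
    ring
  unfold lawM
  rw [prod_congr rfl fun k _ => h1 k, Finset.prod_univ_sum, Fintype.piFinset_univ]
  refine sum_congr rfl fun c _ => ?_
  rw [prod_mul_distrib, prod_const, card_univ, Fintype.prod_prod_type]

theorem hasSum_lawM : HasSum (fun r : κ × μ → ℕ => lawM r) 1 := by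
  have h1 : ∀ c : κ → ZMod 2, HasSum (fun r : κ × μ → ℕ =>
      (1 / 2 : ℝ) ^ Fintype.card κ * ∏ j : κ × μ, lawc (c j.1) (r j)) ((1 / 2) ^ Fintype.card κ * 1) :=
    fun c => (hasSum_prod (f := fun (j : κ × μ) e => lawc (c j.1) e) (fun j e => lawc_nonneg _ _)
      fun j => hasSum_lawc _).mul_left _
  have h2 := hasSum_sum fun c (_ : c ∈ (univ : Finset (κ → ZMod 2))) => h1 c
  rw [sum_const, card_univ, Fintype.card_fun, ZMod.card, mul_one, nsmul_eq_mul] at h2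
  push_cast at h2
  rw [← mul_pow, show (2 : ℝ) * (1 / 2) = 1 by norm_num, one_pow] at h2
  have e : (fun r : κ × μ → ℕ => lawM r) = fun r => ∑ c : κ → ZMod 2,
      (1 / 2 : ℝ) ^ Fintype.card κ * ∏ j : κ × μ, lawc (c j.1) (r j) := funext fun r => lawM_eq r
  rw [e]
  exact h2

end lawM

section low

variable {J : Type} [Fintype J]

theorem low_of {ℓ : (J → ℕ) → ℝ} (h0 : ∀ r, 0 ≤ ℓ r) (hs : Summable ℓ) (dd : J → ℤ → ℕ) (bs : J → ℕ)
    (C : ℤ → Prop) {c : ℝ} (hc : 0 < c)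
    (h3 : Tendsto (fun X : ℕ => (((Icc (-(X : ℤ)) X).filter fun D => C D).card : ℝ) / X) atTop (𝓝 c))
    (h4 : ∀ (r : J → ℕ) (Q : ℤ → Prop), (∀ D, Q D ↔ ∀ j, dd j D = bs j + r j) →
      Tendsto (fun X : ℕ => (((Icc (-(X : ℤ)) X).filter fun D => C D ∧ Q D).card : ℝ) / X) atTop
        (𝓝 (ℓ r * c)))
    (𝒜 : Set (J → ℕ)) (G : ℤ → Prop) (B : ℕ)
    (hG : ∀ D, C D → B < D.natAbs → (∃ r ∈ 𝒜, ∀ j, dd j D = bs j + r j) → G D) (ε : ℝ) (hε : 0 < ε) :
    ∀ᶠ X : ℕ in atTop, ((∑' e : J → ℕ, if e ∈ 𝒜 then ℓ e else 0) - ε) *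
      (((Icc (-(X : ℤ)) X).filter fun D => C D).card : ℝ) ≤
        (((Icc (-(X : ℤ)) X).filter fun D => C D ∧ G D).card : ℝ) := by
  have hs' : Summable (fun e : J → ℕ => if e ∈ 𝒜 then ℓ e else 0) := by
    refine Summable.of_nonneg_of_le (fun e => ?_) (fun e => ?_) hs
    · split_ifs
      · exact h0 e
      · exact le_rfl
    · split_ifs
      · exact le_rfl
      · exact h0 e
  obtain ⟨F, hF𝒜, hF⟩ : ∃ F : Finset (J → ℕ), (∀ e ∈ F, e ∈ 𝒜) ∧
      (∑' e : J → ℕ, if e ∈ 𝒜 then ℓ e else 0) - ε / 2 ≤ ∑ e ∈ F, ℓ e := by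
    obtain ⟨S, hS⟩ := ((hs'.hasSum.eventually_const_lt
      (show (∑' e : J → ℕ, if e ∈ 𝒜 then ℓ e else 0) - ε / 2 < _ by linarith))).exists
    refine ⟨S.filter (· ∈ 𝒜), fun e he => (mem_filter.1 he).2, ?_⟩
    rw [sum_filter]
    exact hS.le
  obtain ⟨Q, hQ⟩ : ∃ Q : (J → ℕ) → ℤ → Prop, ∀ r D, Q r D ↔ ∀ j, dd j D = bs j + r j :=
    ⟨_, fun _ _ => Iff.rfl⟩
  set P : ℝ := ∑ e ∈ F, ℓ e with hP
  set N : ℕ → ℝ := fun X => (((Icc (-(X : ℤ)) X).filter fun D => C D).card : ℝ) with hN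
  have h5 : Tendsto (fun X : ℕ => ∑ r ∈ F,
      (((Icc (-(X : ℤ)) X).filter fun D => C D ∧ Q r D).card : ℝ) / X) atTop
      (𝓝 (∑ r ∈ F, ℓ r * c)) := tendsto_finsetSum _ fun r _ => h4 r (Q r) (hQ r)
  rw [← Finset.sum_mul, ← hP] at h5
  set Bn : ℝ := 2 * (B : ℝ) + 1 with hB
  have h6 : Tendsto (fun X : ℕ => Bn / (X : ℝ)) atTop (𝓝 0) :=
    tendsto_const_div_atTop_nhds_zero_nat Bn
  have h7 := (h5.sub h6).sub (h3.const_mul (P - ε / 2))
  have e1 : P * c - 0 - (P - ε / 2) * c = ε / 2 * c := by ring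
  rw [e1] at h7
  filter_upwards [h7.eventually_const_lt (show (0 : ℝ) < ε / 2 * c from mul_pos (half_pos hε) hc),
    eventually_gt_atTop 0] with X hX hX0
  have hX0' : (0 : ℝ) < X := by exact_mod_cast hX0
  have h8 : ∑ r ∈ F, (((Icc (-(X : ℤ)) X).filter fun D => C D ∧ Q r D).card : ℝ) ≤
      (((Icc (-(X : ℤ)) X).filter fun D => C D ∧ G D).card : ℝ) + Bn := by
    have h9 : ∑ r ∈ F, ((Icc (-(X : ℤ)) X).filter fun D => C D ∧ Q r D).card =
        (F.biUnion fun r => (Icc (-(X : ℤ)) X).filter fun D => C D ∧ Q r D).card := by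
      symm
      refine Finset.card_biUnion fun r _ r' _ hrr => ?_
      refine Finset.disjoint_left.2 ?_
      intro D hD hD'
      apply hrr
      have a1 := (hQ r D).1 (mem_filter.1 hD).2.2
      have a2 := (hQ r' D).1 (mem_filter.1 hD').2.2
      funext k
      have a3 := a1 k
      rw [a2 k] at a3
      omega
    have h10 : (F.biUnion fun r => (Icc (-(X : ℤ)) X).filter fun D => C D ∧ Q r D) ⊆
        ((Icc (-(X : ℤ)) X).filter fun D => C D ∧ G D) ∪ Icc (-(B : ℤ)) (B : ℤ) := by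
      intro D hD
      obtain ⟨r, hr, hD⟩ := mem_biUnion.1 hD
      obtain ⟨a1, a2, a3⟩ := mem_filter.1 hD
      rw [mem_union]
      by_cases hb : B < D.natAbs
      · left
        exact mem_filter.2 ⟨a1, a2, hG D a2 hb ⟨r, hF𝒜 r hr, (hQ r D).1 a3⟩⟩
      · right
        rw [mem_Icc, ← abs_le, Int.abs_eq_natAbs]
        exact_mod_cast not_lt.1 hb
    have h11 := (card_le_card h10).trans (card_union_le _ _)
    rw [← h9, Int.card_Icc] at h11
    have h12 : ((B : ℤ) + 1 - -(B : ℤ)).toNat = 2 * B + 1 := by omega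
    rw [h12] at h11
    have h13 := (Nat.cast_le (α := ℝ)).2 h11
    push_cast at h13
    rw [hB]
    exact h13
  have h9 : (0 : ℝ) < ∑ r ∈ F, (((Icc (-(X : ℤ)) X).filter fun D => C D ∧ Q r D).card : ℝ) - Bn -
      (P - ε / 2) * N X := by
    have h10 : ∑ r ∈ F, (((Icc (-(X : ℤ)) X).filter fun D => C D ∧ Q r D).card : ℝ) / X - Bn / X -
        (P - ε / 2) * (N X / X) = (∑ r ∈ F,
          (((Icc (-(X : ℤ)) X).filter fun D => C D ∧ Q r D).card : ℝ) - Bn -
          (P - ε / 2) * N X) / X := by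
      rw [← Finset.sum_div]
      ring
    have hX' : (0 : ℝ) < ∑ r ∈ F,
        (((Icc (-(X : ℤ)) X).filter fun D => C D ∧ Q r D).card : ℝ) / X - Bn / X -
        (P - ε / 2) * (N X / X) := hX
    rw [h10] at hX'
    exact (div_pos_iff_of_pos_right hX0').1 hX'
  have h10 : (0 : ℝ) ≤ N X := Nat.cast_nonneg _
  have h11 : ((∑' e : J → ℕ, if e ∈ 𝒜 then ℓ e else 0) - ε) * N X ≤
      (P - ε / 2) * N X := mul_le_mul_of_nonneg_right (by linarith) h10
  show ((∑' e : J → ℕ, if e ∈ 𝒜 then ℓ e else 0) - ε) * N X ≤ _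
  linarith

end low

end Q44.JQ.M
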