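import Pool.Agent.Q44.JQ.W.Tot

/-!
# From the laws in the classes to the law over all squarefree integers, general form
-/

set_option autoImplicit false
set_option linter.unusedSectionVars false

open scoped Classical Topology

namespace Q44.JQ.M

open Finset Module Filter
open Q44.JQ Q44.JQ.W

variable {T : Finset ℕ}

/-- the dimensions and the laws in the classes -/
structure Pk (T : Finset ℕ) (J : Type) (G : (Option T → ZMod 2) → Prop) where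
  dm : (Option T → ZMod 2) → J → (Option T → ZMod 2) → ℕ → ℕ
  bs : J → ℕ
  ℓ : (Option T → ZMod 2) → (Option T → ZMod 2) → (J → ℕ) → ℝ
  lim : ∀ γ, G γ → ∀ ρ (r : J → ℕ) (Q : ℕ → Prop), (∀ n, Q n ↔ ∀ j, dm γ j ρ n = bs j + r j) →
    Tendsto (fun X : ℕ => (((Icc 1 X).filter fun n => Dn T ρ n ∧ Q n).card : ℝ) /
      (((Icc 1 X).filter fun n => Dn T ρ n).card : ℝ)) atTop (𝓝 (ℓ γ ρ r))

variable {J : Type} {G : (Option T → ZMod 2) → Prop} (P : Pk T J G)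

/-- the dimension attached to a squarefree integer -/
noncomputable def Pk.dd (j : J) (D : ℤ) : ℕ := P.dm (ct D) j (lbl T (nD T D)) (nD T D)

variable (L : LB T)

include L

/-- the density of a set of classes -/
theorem dens_cls {δ : ℝ} (hdens : ∀ ρ : Option T → ZMod 2,
    Tendsto (fun X : ℕ => (((Icc 1 X).filter fun n => Dn T ρ n).card : ℝ) / X) atTop (𝓝 δ))
    (𝒞 : Finset (Cl T)) (C : ℤ → Prop) (hC : ∀ D, C D ↔ Squarefree D ∧ clD T D ∈ 𝒞) :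
    Tendsto (fun X : ℕ => (((Icc (-(X : ℤ)) X).filter fun D => C D).card : ℝ) / X) atTop
      (𝓝 (δ * ∑ x ∈ 𝒞, (1 : ℝ) / (Uo x.1).natAbs)) := by
  obtain ⟨Tr, hTr⟩ : ∃ Tr : ℤ → Prop, ∀ D, Tr D := ⟨fun _ => True, fun _ => trivial⟩
  obtain ⟨Rr, hRr⟩ : ∃ Rr : ℕ → Prop, ∀ n, Rr n := ⟨fun _ => True, fun _ => trivial⟩
  have hone : ∀ x ∈ 𝒞, ∀ C' : ℤ → Prop, (∀ D, C' D ↔ Squarefree D ∧ clD T D = x) →
      Tendsto (fun X : ℕ => (((Icc (-(X : ℤ)) X).filter fun D => C' D ∧ Tr D).card : ℝ) / X) atTop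
        (𝓝 (δ * (1 / (Uo x.1).natAbs))) := by
    rintro ⟨γ, ρ⟩ - C' hC'
    have h2 := L.lim_cls γ ρ C' Tr Rr hC' (fun n => ⟨fun _ => hTr _, fun _ => hRr _⟩)
      (c := δ) (by
        refine (hdens ρ).congr fun X => ?_
        congr 3
        refine Finset.filter_congr fun n _ => ?_
        exact ⟨fun h => ⟨h, hRr n⟩, fun h => h.1⟩)
    have e : δ * (1 / ((Uo (γ, ρ).1).natAbs : ℝ)) = δ / ((Uo γ).natAbs : ℝ) := by ring
    rw [e]
    exact h2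
  have h2 := lim_sum 𝒞 C Tr hC (fun x => δ * (1 / (Uo x.1).natAbs)) hone
  rw [← mul_sum] at h2
  refine h2.congr fun X => ?_
  congr 3
  refine Finset.filter_congr fun n _ => ?_
  exact ⟨fun h => h.1, fun h => ⟨h, hTr n⟩⟩

/-- the law in a set of classes -/
theorem Pk.law {δ : ℝ} (hdens : ∀ ρ : Option T → ZMod 2,
    Tendsto (fun X : ℕ => (((Icc 1 X).filter fun n => Dn T ρ n).card : ℝ) / X) atTop (𝓝 δ))
    (𝒞 : Finset (Cl T)) (hG : ∀ x ∈ 𝒞, G x.1) (C : ℤ → Prop)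
    (hC : ∀ D, C D ↔ Squarefree D ∧ clD T D ∈ 𝒞) (r : J → ℕ) (Q : ℤ → Prop)
    (hQ : ∀ D, Q D ↔ ∀ j, P.dd j D = P.bs j + r j) :
    Tendsto (fun X : ℕ => (((Icc (-(X : ℤ)) X).filter fun D => C D ∧ Q D).card : ℝ) / X) atTop
      (𝓝 (∑ x ∈ 𝒞, δ * ((1 : ℝ) / (Uo x.1).natAbs) * P.ℓ x.1 x.2 r)) := by
  refine lim_sum 𝒞 C Q hC _ ?_
  rintro ⟨γ, ρ⟩ hx C' hC'
  obtain ⟨Qn, hQn⟩ : ∃ Qn : ℕ → Prop, ∀ n, Qn n ↔ ∀ j, P.dm γ j ρ n = P.bs j + r j :=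
    ⟨_, fun _ => Iff.rfl⟩
  obtain ⟨R, hR⟩ : ∃ R : ℕ → Prop, ∀ n : ℕ, R n ↔ Q (Uo γ * n) := ⟨_, fun _ => Iff.rfl⟩
  have h2 := L.lim_mul (hdens ρ) Qn (P.lim γ (hG _ hx) ρ r Qn hQn)
  have h3 := L.lim_cls γ ρ C' Q R hC' hR (c := δ * P.ℓ γ ρ r) (by
    refine h2.congr fun X => ?_
    congr 3
    refine Finset.filter_congr fun n _ => ?_
    refine and_congr_right fun hn => ?_
    obtain ⟨g1, g2, g3⟩ := L.uni γ hn.1 hn.2.1
    rw [hQn, hR, hQ]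
    show _ ↔ ∀ j, P.dm (ct (Uo γ * (n : ℤ))) j (lbl T (nD T (Uo γ * (n : ℤ))))
      (nD T (Uo γ * (n : ℤ))) = P.bs j + r j
    rw [g2, g3, hn.2.2])
  have e : δ * ((1 : ℝ) / (Uo (γ, ρ).1).natAbs) * P.ℓ (γ, ρ).1 (γ, ρ).2 r =
      δ * P.ℓ γ ρ r / (Uo γ).natAbs := by ring
  rw [e]
  exact h3

/-- the average over the changes of the classes at the primes `p k` -/
theorem avg_cls (hLBL : S_LBL) {κ : Type} [Fintype κ] (p : κ → T) (hp : ∀ k, ((p k : T) : ℕ) ≠ 2)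
    {δ : ℝ} (𝒞 : Finset (Cl T)) (hG : ∀ x ∈ 𝒞, G x.1)
    (hinv : ∀ k t x, x ∈ 𝒞 → Tt T (p k) t → (x.1, x.2 + lbl T t) ∈ 𝒞)
    (π : (Option T → ZMod 2) → κ → (Option T → ZMod 2) → ZMod 2)
    (hπ : ∀ γ, G γ → ∀ k l ρ t, Tt T (p k) t →
      π γ l (ρ + lbl T t) = π γ l ρ + if l = k then 1 else 0)
    (f : κ → ZMod 2 → ℝ) :
    ∑ x ∈ 𝒞, δ * ((1 : ℝ) / (Uo x.1).natAbs) * ∏ k, f k (π x.1 k x.2) =
      (∏ k, ((f k 0 + f k 1) / 2)) * (δ * ∑ x ∈ 𝒞, (1 : ℝ) / (Uo x.1).natAbs) := by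
  choose t ht using fun k => exists_Tt hLBL L.toTS (hp k)
  have hinv2 : ∀ (k : κ) (x : Cl T), (x.1, x.2 + lbl T (t k)) ∈ 𝒞 ↔ x ∈ 𝒞 := by
    intro k x
    constructor
    · intro h
      have h3 := hinv k (t k) _ h (ht k)
      have e : (x.2 + lbl T (t k)) + lbl T (t k) = x.2 := by
        rw [add_assoc, CharTwo.add_self_eq_zero, add_zero]
      change (x.1, (x.2 + lbl T (t k)) + lbl T (t k)) ∈ 𝒞 at h3
      rw [e] at h3
      exact h3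
    · intro h
      exact hinv k (t k) x h (ht k)
  have h3 := avg (Ω := Cl T) (fun x => if x ∈ 𝒞 then δ * ((1 : ℝ) / (Uo x.1).natAbs) else 0)
    (fun k x => π x.1 k x.2)
    (fun k =>
      { toFun := fun x => (x.1, x.2 + lbl T (t k))
        invFun := fun x => (x.1, x.2 + lbl T (t k))
        left_inv := fun x => by
          refine Prod.ext rfl ?_
          show (x.2 + lbl T (t k)) + lbl T (t k) = x.2
          rw [add_assoc, CharTwo.add_self_eq_zero, add_zero]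
        right_inv := fun x => by
          refine Prod.ext rfl ?_
          show (x.2 + lbl T (t k)) + lbl T (t k) = x.2
          rw [add_assoc, CharTwo.add_self_eq_zero, add_zero] })
    (fun k x => by
      show (if (x.1, x.2 + lbl T (t k)) ∈ 𝒞 then δ * ((1 : ℝ) / (Uo x.1).natAbs) else 0) =
        if x ∈ 𝒞 then δ * ((1 : ℝ) / (Uo x.1).natAbs) else 0
      by_cases h : x ∈ 𝒞
      · rw [if_pos h, if_pos ((hinv2 k x).2 h)]
      · rw [if_neg h, if_neg fun h' => h ((hinv2 k x).1 h')])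
    (fun k l x hx => by
      have hx' : x ∈ 𝒞 := by
        by_contra h
        exact hx (if_neg h)
      exact hπ x.1 (hG _ hx') k l x.2 (t k) (ht k))
    f
  have e1 : ∑ x ∈ 𝒞, δ * ((1 : ℝ) / (Uo x.1).natAbs) * ∏ k, f k (π x.1 k x.2) =
      ∑ x : Cl T, (if x ∈ 𝒞 then δ * ((1 : ℝ) / (Uo x.1).natAbs) else 0) *
        ∏ k, f k (π x.1 k x.2) := by
    simp only [ite_mul, zero_mul]
    rw [Finset.sum_ite_mem, Finset.univ_inter]
  have e2 : ∑ x : Cl T, (if x ∈ 𝒞 then δ * ((1 : ℝ) / (Uo x.1).natAbs) else 0) =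
      δ * ∑ x ∈ 𝒞, (1 : ℝ) / (Uo x.1).natAbs := by
    rw [Finset.sum_ite_mem, Finset.univ_inter, mul_sum]
  rw [e1, h3, e2]

end Q44.JQ.M
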