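import Pool.Agent.Q44.JQ.M.Pk2
import Pool.Agent.Q44.JQ.M.Tot
import Pool.Agent.Q44.JQ.W.Out
import Pool.Agent.Q44.JQ.StmG
import Pool.Agent.Q44.JQ.M.Low

/-!
# The joint law for several curves and several multipliers
-/

set_option autoImplicit false
set_option linter.unusedSectionVars false

open scoped Classical Topology

namespace Q44.JQ.M

open Finset Module Filter
open Q44.JQ Q44.JQ.W
open Pool.Agent.TH344.JG (LocJ SelJ PR df)
open Pool.Agent.Y723.PT (tw)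

/-! ### Squarefree parts -/

theorem sqf_dvd {a b w : ℤ} (ha : Squarefree a) (hb : Squarefree b) (h : a * b = w ^ 2) :
    a.natAbs ∣ b.natAbs := by
  rw [← Nat.prod_primeFactors_of_squarefree (Int.squarefree_natAbs.2 ha)]
  refine Finset.prod_primes_dvd _ (fun p hp => (Nat.prime_of_mem_primeFactors hp).prime)
    fun p hp => ?_
  have hp' := Nat.prime_of_mem_primeFactors hp
  have hP := Nat.prime_iff_prime_int.1 hp'
  have h1 : (p : ℤ) ∣ a := Int.natCast_dvd.2 (Nat.dvd_of_mem_primeFactors hp)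
  have h2 : (p : ℤ) ∣ w := hP.dvd_of_dvd_pow (n := 2) (by
    rw [← h]
    exact h1.mul_right _)
  have h3 : (p : ℤ) ^ 2 ∣ a * b := by
    rw [h]
    exact pow_dvd_pow_of_dvd h2 2
  by_contra hc
  have hc' : ¬ (p : ℤ) ∣ b := fun h => hc (Int.natCast_dvd.1 h)
  have h4 : (p : ℤ) ^ 2 ∣ a := hP.pow_dvd_of_dvd_mul_right 2 hc' h3
  rw [pow_two] at h4
  have h5 := ha _ h4
  rw [Int.isUnit_iff] at h5
  have := hp'.one_lt
  omega

theorem sqf_unique {a b s t : ℤ} (ha : Squarefree a) (hb : Squarefree b) (hs : s ≠ 0)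
    (h : a * s ^ 2 = b * t ^ 2) : a = b := by
  have ht : t ≠ 0 := by
    rintro rfl
    rw [zero_pow two_ne_zero, mul_zero] at h
    exact mul_ne_zero ha.ne_zero (pow_ne_zero 2 hs) h
  have h1 : (b * a) * s ^ 2 = (b * t) ^ 2 := by
    rw [mul_pow, mul_assoc, h]
    ring
  obtain ⟨w, hw⟩ : s ∣ b * t := by
    rw [← Int.pow_dvd_pow_iff two_ne_zero]
    exact ⟨b * a, by rw [← h1]; ring⟩
  have h2 : b * a = w ^ 2 := by
    have h3 : (b * a) * s ^ 2 = w ^ 2 * s ^ 2 := by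
      rw [h1, hw]
      ring
    exact mul_right_cancel₀ (pow_ne_zero 2 hs) h3
  have h4 : a.natAbs = b.natAbs := Nat.dvd_antisymm (sqf_dvd ha hb (by rw [← h2, mul_comm]))
    (sqf_dvd hb ha h2)
  rcases Int.natAbs_eq_natAbs_iff.1 h4 with h5 | h5
  · exact h5
  · exfalso
    rw [h5] at h
    have h6 : b * (s ^ 2 + t ^ 2) = 0 := by linarith
    have h7 : 0 < s ^ 2 + t ^ 2 := by positivity
    rcases mul_eq_zero.1 h6 with h8 | h8
    · exact hb.ne_zero h8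
    · exact h7.ne' h8

/-! ### The sets of primes -/

variable {κ μ : Type} [Fintype κ] [Fintype μ] (E : Ex κ)

/-- the condition on the multipliers -/
structure Mult (E : Ex κ) (m : μ → ℕ) : Prop where
  inj : Function.Injective m
  sqf : ∀ i, Squarefree (m i)
  sq : ∀ i, ∀ (p : ℕ) [Fact p.Prime], (p = 2 ∨ (p : ℤ) ∣ E.DD) → IsSquare ((m i : ℕ) : ℚ_[p])

variable {m : μ → ℕ} (hm : Mult E m) (S : Finset ℕ)

/-- `S` and the primes of the multipliers -/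
noncomputable def SM (m : μ → ℕ) (S : Finset ℕ) : Finset ℕ := S ∪ univ.biUnion fun i => (m i).primeFactors

theorem S_sub : S ⊆ SM m S := subset_union_left

theorem T_sub : E.T ∅ ⊆ E.T (SM m S) := by
  intro p hp
  rcases mem_insert.1 hp with h | h
  · rw [h]
    exact mem_insert_self _ _
  · rcases mem_union.1 h with h | h
    · exact absurd (mem_filter.1 h).1 (notMem_empty _)
    · exact mem_insert_of_mem (mem_union_right _ h)

theorem mem_T0 {p : ℕ} (h : p ∈ E.T ∅) : p = 2 ∨ (p : ℤ) ∣ E.DD := by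
  rcases mem_insert.1 h with h | h
  · exact Or.inl h
  · rcases mem_union.1 h with h | h
    · exact absurd (mem_filter.1 h).1 (notMem_empty _)
    · exact Or.inr (Int.natCast_dvd.2 (Nat.dvd_of_mem_primeFactors h))

/-- a squarefree integer which is a square in `ℚ_p` is prime to `p` -/
theorem not_dvd_of_sq {n p : ℕ} [hp : Fact p.Prime] (hn : Squarefree n)
    (h : IsSquare ((n : ℕ) : ℚ_[p])) : ¬ p ∣ n := by
  intro hd
  obtain ⟨w, hw⟩ := hd
  have hpw : ¬ p ∣ w := by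
    rintro ⟨v, hv⟩
    have h1 : p * p ∣ n := ⟨v, by rw [hw, hv]; ring⟩
    exact hp.out.one_lt.ne' (Nat.isUnit_iff.1 (hn _ h1))
  obtain ⟨r, hr⟩ := h
  have hn0 : ((n : ℕ) : ℚ_[p]) ≠ 0 := Nat.cast_ne_zero.2 hn.ne_zero
  have hr0 : r ≠ 0 := by
    rintro rfl
    rw [mul_zero] at hr
    exact hn0 hr
  have h1 : Padic.valuation ((n : ℕ) : ℚ_[p]) = 2 * Padic.valuation r := by
    rw [hr, Padic.valuation_mul hr0 hr0]
    ring
  rw [Padic.valuation_natCast] at h1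
  have h2 : padicValNat p n = 1 := by
    rw [hw, padicValNat.mul hp.out.ne_zero (by
      rintro rfl
      rw [mul_zero] at hw
      exact hn.ne_zero hw), padicValNat_self, padicValNat.eq_zero_of_not_dvd hpw]
  rw [h2] at h1
  omega

include hm

theorem Mult.cop (i : μ) : Cop (E.T ∅) (m i) := by
  intro p hp
  haveI := Fact.mk ((E.TS ∅).pr p hp)
  exact not_dvd_of_sq (hm.sqf i) (hm.sq i p (mem_T0 E hp))

theorem Mult.lb (hLSQ : S_LSQ) (i : μ) : lbl (E.T ∅) (m i) = 0 :=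
  hLSQ _ (E.TS ∅).pr (E.TS ∅).two _ (hm.cop E i) fun p _ hp => hm.sq i p (mem_T0 E hp)

theorem Mult.pS (hS : ∀ k, E.p k ∉ S) (k : κ) : E.p k ∉ SM m S := by
  intro h
  rcases mem_union.1 h with h | h
  · exact hS k h
  · obtain ⟨i, -, hi⟩ := mem_biUnion.1 h
    exact hm.cop E i _ (E.pT ∅ k) (Nat.dvd_of_mem_primeFactors hi)

/-- the multipliers as sets of primes -/
noncomputable def Mult.Ml (hLSQ : S_LSQ) (S : Finset ℕ) : Ml (E.T ∅) (E.T (SM m S)) μ where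
  M := fun i => (m i).primeFactors
  sub := fun i p hp => by
    refine mem_sdiff.2 ⟨mem_insert_of_mem (mem_union_left _ (mem_filter.2 ⟨?_,
      Nat.prime_of_mem_primeFactors hp⟩)), fun h => ?_⟩
    · exact mem_union_right _ (mem_biUnion.2 ⟨i, mem_univ _, hp⟩)
    · exact hm.cop E i p h (Nat.dvd_of_mem_primeFactors hp)
  inj := fun i j h => by
    apply hm.inj
    have h' : (m i).primeFactors = (m j).primeFactors := h
    rw [← Nat.prod_primeFactors_of_squarefree (hm.sqf i), h',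
      Nat.prod_primeFactors_of_squarefree (hm.sqf j)]
  lb := fun i => by
    rw [Nat.prod_primeFactors_of_squarefree (hm.sqf i)]
    exact hm.lb E hLSQ i

omit hm

/-- classes of classes -/
theorem cond_trans {E : Ex κ} {S S' : Finset ℕ} (hSS : S ⊆ S') {D₀ D D' : ℤ} (hD : Squarefree D)
    (h1 : E.Cond S D₀ D) (h2 : E.Cond S' D D') : E.Cond S D₀ D' := by
  obtain ⟨a1, a2, a3⟩ := h1
  obtain ⟨b1, b2, b3⟩ := h2
  refine ⟨b1, ?_, fun l _ hl => ?_⟩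
  · have h3 : 0 < (D' * D) * (D * D₀) := mul_pos b2 a2
    have h4 : (D' * D) * (D * D₀) = (D' * D₀) * (D * D) := by ring
    rw [h4] at h3
    exact (mul_pos_iff_of_pos_right (mul_self_pos.2 hD.ne_zero)).1 h3
  · have h3 := a3 l hl
    have h4 := b3 l (hSS hl)
    have hD0 : ((D : ℤ) : ℚ_[l]) ≠ 0 := Int.cast_ne_zero.2 hD.ne_zero
    push_cast at h3 h4 ⊢
    exact isSquare_cancel hD0 h4 h3

theorem cond_self {E : Ex κ} {S' : Finset ℕ} {D : ℤ} (hD : Squarefree D)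
    (h1 : ∀ k, ¬ (E.p k : ℤ) ∣ D) : E.Cond S' D D :=
  ⟨h1, mul_self_pos.2 hD.ne_zero, fun l _ _ => by
    push_cast
    exact ⟨_, rfl⟩⟩

/-- the facts -/
structure FactsM : Prop where
  arx : S_ARX
  adjm : S_ADJM
  cht : S_CHT
  omv : S_OMV
  laj : S_LAJ2
  sqm : S_SQM
  lbl : S_LBL
  irrA : S_IRRA
  irrB : S_IRRB
  lsq : S_LSQ

/-- **the joint law** -/
theorem jointM (H : FactsM) (hm : Mult E m) (hS : ∀ k, E.p k ∉ S) :
    ∃ dd : κ × μ → ℤ → ℕ,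
      (∀ D : ℤ, Squarefree D → (∀ k, ¬ (E.p k : ℤ) ∣ D) → ∀ k i, ∀ D' t : ℤ, Squarefree D' →
        D * m i = D' * t ^ 2 → (SelJ (tw D' (E.a k))).Finite ∧
        (SelJ (tw D' (E.a k))).ncard ≤ 2 ^ dd (k, i) D) ∧
      ∀ D₀ : ℤ, Squarefree D₀ → (∀ k, ¬ (E.p k : ℤ) ∣ D₀) → ∀ C : ℤ → Prop,
        (∀ D, C D ↔ Squarefree D ∧ E.Cond S D₀ D) → ∃ c : ℝ, 0 < c ∧
        Tendsto (fun X : ℕ => (((Icc (-(X : ℤ)) X).filter fun D => C D).card : ℝ) / X) atTop (𝓝 c) ∧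
        ∀ (r : κ × μ → ℕ) (Q : ℤ → Prop), (∀ D, Q D ↔ ∀ j, dd j D = 2 * E.g j.1 + r j) →
          Tendsto (fun X : ℕ => (((Icc (-(X : ℤ)) X).filter fun D => C D ∧ Q D).card : ℝ) / X) atTop
            (𝓝 (lawM r * c)) := by
  have L := LB.of H.lbl (E.TS ∅)
  have L' := LB.of H.lbl (E.TS (SM m S))
  set T := E.T ∅ with hT
  set T' := E.T (SM m S) with hT'
  have h : T ⊆ T' := T_sub E S
  obtain ⟨Mu, hMu⟩ : ∃ Mu : Ml T T' μ, ∀ i, Mu.M i = (m i).primeFactors :=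
    ⟨hm.Ml E H.lsq S, fun i => rfl⟩
  obtain ⟨F, hFc, hFp⟩ : ∃ F : Fm T κ, (∀ k, F.c k = E.cr ∅ k) ∧ ∀ k, F.p k = ⟨E.p k, E.pT ∅ k⟩ :=
    ⟨E.Fm H.irrA H.irrB ∅ L, fun k => rfl, fun k => rfl⟩
  have hG : ∀ D : ℤ, Squarefree D → ((∀ k, ¬ (E.p k : ℤ) ∣ D) ↔ F.Gk (rs h (ct D))) := by
    intro D hD
    unfold Fm.Gk
    refine forall_congr' fun k => ?_
    rw [hFp, E.not_dvd_iff L' hD k]
    exact Iff.rfl
  obtain ⟨δ, hδ, hdens⟩ := L'.dens H.sqm
  have h1 : ∀ γ : Option T' → ZMod 2, ∃ (dm : κ → μ → (Option T' → ZMod 2) → ℕ → ℕ)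
      (π : κ → (Option T' → ZMod 2) → ZMod 2), F.Gk (rs h γ) →
      (∀ k i n, Squarefree n → Cop T' n →
        (SelJ (tw (Uo (rs h γ) * ((∏ q ∈ Mu.Mg γ i, (q : ℤ)) * n)) (F.c k).a)).Finite ∧
        (SelJ (tw (Uo (rs h γ) * ((∏ q ∈ Mu.Mg γ i, (q : ℤ)) * n)) (F.c k).a)).ncard ≤
          2 ^ dm k i (lbl T' n) n) ∧
      (∀ ρ (r : κ → μ → ℕ) (Q : ℕ → Prop),
        (∀ n, Q n ↔ ∀ k i, dm k i ρ n = 2 * (F.c k).g + r k i) →
        Tendsto (fun X : ℕ => (((Icc 1 X).filter fun n => Dn T' ρ n ∧ Q n).card : ℝ) /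
          (((Icc 1 X).filter fun n => Dn T' ρ n).card : ℝ)) atTop
          (𝓝 (∏ k, ∏ i, lawc (π k ρ) (r k i)))) ∧
      (∀ k l ρ t, Tt T' ⟨F.p k, h (F.p k).2⟩ t →
        π l (ρ + lbl T' t) = π l ρ + if l = k then 1 else 0) := by
    intro γ
    by_cases hγ : F.Gk (rs h γ)
    · obtain ⟨dm, π, h2⟩ := pkgM h F Mu L L' H.arx H.adjm H.cht H.omv H.laj hγ
      exact ⟨dm, π, fun _ => h2⟩
    · exact ⟨fun _ _ _ _ => 0, fun _ _ => 0, fun h => absurd h hγ⟩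
  choose dm π hpk using h1
  let P : Pk T' (κ × μ) (fun γ => F.Gk (rs h γ)) :=
    { dm := fun γ j ρ n => dm γ j.1 j.2 ρ n
      bs := fun j => 2 * E.g j.1
      ℓ := fun γ ρ r => ∏ k, ∏ i, lawc (π γ k ρ) (r (k, i))
      lim := fun γ hγ ρ r Q hQ => by
        refine (hpk γ hγ).2.1 ρ (fun k i => r (k, i)) Q fun n => ?_
        rw [hQ]
        constructor
        · intro h2 k i
          rw [hFc]
          exact h2 (k, i)
        · intro h2 j
          have h3 := h2 j.1 j.2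
          rw [hFc] at h3
          exact h3 }
  refine ⟨P.dd, ?_, ?_⟩
  · intro D hD hp k i D' t hD' hDD
    obtain ⟨g1, g2, g3⟩ := L'.dec hD
    have hγ := (hG D hD).1 hp
    have h2 := (hpk (ct D) hγ).1 k i (nD T' D) g2 g3
    have h3 : D' = Uo (rs h (ct D)) * ((∏ q ∈ Mu.Mg (ct D) i, (q : ℤ)) * (nD T' D : ℕ)) := by
      have hsub := Mu.Mg_sub (ct D) i
      obtain ⟨u1, u2, -⟩ := L.uo (rs h (ct D))
      have hnat : (∏ q ∈ Mu.Mg (ct D) i, (q : ℤ)) * (nD T' D : ℕ) =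
          (((∏ q ∈ Mu.Mg (ct D) i, q) * nD T' D : ℕ) : ℤ) := by push_cast; rfl
      have hsq1 : Squarefree (∏ q ∈ Mu.Mg (ct D) i, q) := by
        refine (Finset.squarefree_prod_of_pairwise_isCoprime ?_ ?_)
        · intro p hp q hq hpq
          exact Nat.coprime_iff_isRelPrime.1
            ((Nat.coprime_primes (pos_of L' hsub p hp).1 (pos_of L' hsub q hq).1).2 hpq)
        · intro q hq
          exact (pos_of L' hsub q hq).1.prime.squarefree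
      have hc1 : (∏ q ∈ Mu.Mg (ct D) i, q).Coprime (nD T' D) := by
        refine Nat.Coprime.prod_left fun q hq => ?_
        exact (Nat.Prime.coprime_iff_not_dvd (pos_of L' hsub q hq).1).2
          (g3 q (pos_of L' hsub q hq).2.1)
      have hsq2 : Squarefree ((∏ q ∈ Mu.Mg (ct D) i, q) * nD T' D) :=
        (Nat.squarefree_mul hc1).2 ⟨hsq1, g2⟩
      have hc2 : Cop T ((∏ q ∈ Mu.Mg (ct D) i, q) * nD T' D) :=
        L.cop_mul (lbl_sum L' L hsub).1 (cop_rs h g3)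
      have hsq3 := (L.uni (rs h (ct D)) hsq2 hc2).1
      rw [hnat]
      have hM : ((m i : ℕ) : ℤ) = ∏ q ∈ Mu.M i, (q : ℤ) := by
        rw [hMu, ← Nat.cast_prod, Nat.prod_primeFactors_of_squarefree (hm.sqf i)]
      have hsd := prod_sd (Qs (T' := T') T (ct D)) (Mu.M i)
      have e : D * m i = (Uo (rs h (ct D)) * (((∏ q ∈ Mu.Mg (ct D) i, q) * nD T' D : ℕ) : ℤ)) *
          (∏ q ∈ Qs (T' := T') T (ct D) ∩ Mu.M i, (q : ℤ)) ^ 2 := by
        rw [← hnat, hM]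
        conv_lhs => rw [g1, Uo_split h (ct D)]
        have e2 : (∏ q ∈ Mu.Mg (ct D) i, (q : ℤ)) =
          ∏ q ∈ symmDiff (Qs (T' := T') T (ct D)) (Mu.M i), (q : ℤ) := rfl
        rw [e2]
        calc Uo (rs h (ct D)) * (∏ q ∈ Qs (T' := T') T (ct D), (q : ℤ)) * ((nD T' D : ℕ) : ℤ) *
            ∏ q ∈ Mu.M i, (q : ℤ)
            = Uo (rs h (ct D)) * ((nD T' D : ℕ) : ℤ) * ((∏ q ∈ Qs (T' := T') T (ct D), (q : ℤ)) *
              ∏ q ∈ Mu.M i, (q : ℤ)) := by ring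
          _ = _ := by rw [hsd]; ring
      rw [e] at hDD
      refine (sqf_unique hsq3 hD' ?_ hDD).symm
      exact prod_ne L' fun q hq => Qs_sub _ (mem_inter.1 hq).1
    rw [← h3, hFc] at h2
    exact h2
  · intro D₀ hD₀ hp₀ C hC
    obtain ⟨𝒞, h𝒞⟩ : ∃ 𝒞 : Finset (Cl T'), ∀ x, x ∈ 𝒞 ↔
        ∃ D, Squarefree D ∧ clD T' D = x ∧ E.Cond S D₀ D :=
      ⟨univ.filter fun x => ∃ D, Squarefree D ∧ clD T' D = x ∧ E.Cond S D₀ D, fun x => by
        rw [mem_filter]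
        exact ⟨fun h => h.2, fun h => ⟨mem_univ _, h⟩⟩⟩
    have hGx : ∀ x ∈ 𝒞, F.Gk (rs h x.1) := by
      intro x hx
      obtain ⟨D, hD, rfl, hc⟩ := (h𝒞 x).1 hx
      exact (hG D hD).1 hc.1
    have hinv : ∀ k t x, x ∈ 𝒞 → Tt T' ⟨F.p k, h (F.p k).2⟩ t → (x.1, x.2 + lbl T' t) ∈ 𝒞 := by
      intro k t x hx ht
      obtain ⟨D, hD, rfl, hc⟩ := (h𝒞 x).1 hx
      have ht' : Tt T' ⟨E.p k, E.pT (SM m S) k⟩ t := by
        have e : (⟨F.p k, h (F.p k).2⟩ : T') = ⟨E.p k, E.pT (SM m S) k⟩ := by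
          apply Subtype.ext
          show ((F.p k : T) : ℕ) = E.p k
          rw [hFp]
        rw [e] at ht
        exact ht
      obtain ⟨D', g1, g2, g3⟩ := E.cond_inv L' (hm.pS E S hS) hD (cond_self hD hc.1) ht'
      exact (h𝒞 _).2 ⟨D', g1, g2, cond_trans (S_sub S) hD hc g3⟩
    have hC' : ∀ D, C D ↔ Squarefree D ∧ clD T' D ∈ 𝒞 := by
      intro D
      rw [hC]
      refine and_congr_right fun hD => ?_
      rw [h𝒞]
      constructor
      · exact fun h => ⟨D, hD, rfl, h⟩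
      · rintro ⟨D', hD', h3, h4⟩
        exact cond_trans (S_sub S) hD' h4
          (E.cond_cls L' hD' hD h3 (cond_self hD' h4.1))
    have hmem : clD T' D₀ ∈ 𝒞 := (h𝒞 _).2 ⟨D₀, hD₀, rfl, cond_self hD₀ hp₀⟩
    refine ⟨δ * ∑ x ∈ 𝒞, (1 : ℝ) / (Uo x.1).natAbs, mul_pos hδ (Finset.sum_pos (fun x _ => ?_)
      ⟨_, hmem⟩), dens_cls L' hdens 𝒞 C hC', fun r Q hQ => ?_⟩
    · have : 0 < (Uo x.1).natAbs := Int.natAbs_pos.2 (L'.U0 _)
      positivity
    · have h2 := P.law L' hdens 𝒞 hGx C hC' r Q hQ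
      have h3 := avg_cls L' H.lbl (fun k => (⟨F.p k, h (F.p k).2⟩ : T')) (fun k => F.p_ne2 k)
        (δ := δ) (G := fun γ => F.Gk (rs h γ)) 𝒞 hGx hinv π
        (fun γ hγ k l ρ t ht => (hpk γ hγ).2.2 k l ρ t ht) (fun k c => ∏ i, lawc c (r (k, i)))
      have e : ∑ x ∈ 𝒞, δ * ((1 : ℝ) / (Uo x.1).natAbs) * P.ℓ x.1 x.2 r =
          lawM r * (δ * ∑ x ∈ 𝒞, (1 : ℝ) / (Uo x.1).natAbs) := h3
      rw [e] at h2
      exact h2

end Q44.JQ.M
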