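import Pool.Agent.Q44.JQ.F.Base
import Pool.Agent.Q44.JQ.M.Fin

/-!
# The facts for the theorem with several multipliers
-/

set_option autoImplicit false

namespace Q44.JQ.M

open Q44.JQ

theorem factsM : FactsM :=
  ⟨F.arx, F.adjm, F.cht, F.omv, F.laj2, F.sqm, F.lbl, F.irrA, F.irrB, F.lsq⟩

end Q44.JQ.M
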