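import Pool.Agent.Q44.JQ.M.Fin

/-!
# The theorem with sets of integers, several multipliers
-/

set_option autoImplicit false
set_option linter.unusedSectionVars false

open scoped Classical Topology

namespace Q44.JQ.M

open Finset Module Filter
open Q44.JQ Q44.JQ.W
open Pool.Agent.TH344.JG (LocJ SelJ PR df)
open Pool.Agent.Y723.PT (tw)

variable {κ μ : Type} [Fintype κ] [Fintype μ] (E : Ex κ) {m : μ → ℕ} (S : Finset ℕ)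

/-- the law, curried -/
noncomputable def lawV (e : κ → μ → ℕ) : ℝ :=
  ∏ k, ((∏ i, lawc 0 (e k i)) + ∏ i, lawc 1 (e k i)) / 2

theorem lawV_curry (r : κ × μ → ℕ) : lawV (Function.curry r) = lawM r := rfl

theorem hasSum_lawV : HasSum (fun e : κ → μ → ℕ => lawV e) 1 :=
  (Equiv.curry κ μ ℕ).hasSum_iff.1 hasSum_lawM

/-- the bounds for all multipliers -/
def BddM (m : μ → ℕ) (D : ℤ) (e : κ → μ → ℕ) : Prop :=
  ∀ k i, ∀ D' t : ℤ, Squarefree D' → D * m i = D' * t ^ 2 → Bdd (tw D' (E.a k)) (e k i)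

theorem prime_part {N D D' t : ℤ} {n : ℕ} (hN : N ≠ 0) (hn : (n : ℤ) ∣ N) (hD : Squarefree D)
    (hD' : Squarefree D') (h : D * n = D' * t ^ 2) (hb : N.natAbs < D.natAbs) :
    ∃ q : ℕ, q.Prime ∧ (q : ℤ) ∣ D' ∧ ¬ (q : ℤ) ∣ N := by
  have h1 : ∃ q : ℕ, q.Prime ∧ (q : ℤ) ∣ D ∧ ¬ (q : ℤ) ∣ N := by
    by_contra hc
    exact absurd (fin_bad hN hD hc) (not_le.2 hb)
  obtain ⟨q, hq, hqD, hqN⟩ := h1
  refine ⟨q, hq, ?_, hqN⟩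
  have hP := Nat.prime_iff_prime_int.1 hq
  by_contra hc
  have h2 : (q : ℤ) ∣ D' * t ^ 2 := by
    rw [← h]
    exact hqD.mul_right _
  have h3 : (q : ℤ) ∣ t := hP.dvd_of_dvd_pow ((hP.dvd_or_dvd h2).resolve_left hc)
  have h4 : (q : ℤ) ^ 2 ∣ D * n := by
    rw [h]
    exact (pow_dvd_pow_of_dvd h3 2).mul_left _
  have h5 : ¬ (q : ℤ) ∣ (n : ℤ) := fun h6 => hqN (h6.trans hn)
  have h6 : (q : ℤ) ^ 2 ∣ D := hP.pow_dvd_of_dvd_mul_right 2 h5 h4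
  rw [pow_two] at h6
  have h7 := hD _ h6
  rw [Int.isUnit_iff] at h7
  have := hq.one_lt
  omega

/-- **the theorem for all sets of vectors** -/
theorem allM (H : FactsM) (hm : Mult E m) (hS : ∀ k, E.p k ∉ S) (D₀ : ℤ) (hD₀ : Squarefree D₀)
    (hp₀ : ∀ k, ¬ (E.p k : ℤ) ∣ D₀) (C : ℤ → Prop) (hC : ∀ D, C D ↔ Squarefree D ∧ E.Cond S D₀ D)
    (𝒜 : Set (κ → μ → ℕ)) (G : ℤ → Prop) (hG : ∀ D, G D ↔ ∃ e ∈ 𝒜, BddM E m D e) :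
    (∃ c : ℝ, 0 < c ∧
      Tendsto (fun X : ℕ => (((Icc (-(X : ℤ)) X).filter fun D => C D).card : ℝ) / X) atTop (𝓝 c)) ∧
    ∀ ε : ℝ, 0 < ε → ∀ᶠ X : ℕ in atTop,
      ((∑' e : κ → μ → ℕ, if e ∈ 𝒜 then lawV e else 0) - ε) *
        (((Icc (-(X : ℤ)) X).filter fun D => C D).card : ℝ) ≤
        (((Icc (-(X : ℤ)) X).filter fun D => C D ∧ G D).card : ℝ) := by
  obtain ⟨dd, h1, h2⟩ := jointM E S H hm hS
  obtain ⟨c, hc, h3, h4⟩ := h2 D₀ hD₀ hp₀ C hC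
  refine ⟨⟨c, hc, h3⟩, fun ε hε => ?_⟩
  set N : ℤ := E.DD * ∏ i, (m i : ℤ) with hN
  have hN0 : N ≠ 0 := mul_ne_zero E.DD0 (prod_ne_zero_iff.2 fun i _ =>
    Int.natCast_ne_zero.2 (hm.sqf i).ne_zero)
  have key := low_of (J := κ × μ) (ℓ := lawM) lawM_nonneg hasSum_lawM.summable dd
    (fun j => 2 * E.g j.1) C hc h3 h4 {r | Function.curry r ∈ 𝒜} G N.natAbs ?_ ε hε
  · have e : (∑' r : κ × μ → ℕ, if r ∈ {r | Function.curry r ∈ 𝒜} then lawM r else 0) =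
        ∑' e : κ → μ → ℕ, if e ∈ 𝒜 then lawV e else 0 := by
      rw [← (Equiv.curry κ μ ℕ).tsum_eq]
      rfl
    rw [e] at key
    exact key
  · rintro D hCD hb ⟨r, hr, hdd⟩
    rw [hG]
    refine ⟨Function.curry r, hr, fun k i D' t hD' hDD => ?_⟩
    obtain ⟨hD, hc1⟩ := (hC D).1 hCD
    obtain ⟨c1, c2⟩ := h1 D hD hc1.1 k i D' t hD' hDD
    rw [hdd (k, i)] at c2
    obtain ⟨q, hq, hqD, hqN⟩ := prime_part hN0 ((Finset.dvd_prod_of_mem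
      (fun i => (m i : ℤ)) (mem_univ i)).mul_left _) hD hD' hDD hb
    exact E.bdd hD' ⟨q, hq, hqD, fun h => hqN (h.mul_right _)⟩ c1 c2

theorem outM (H : FactsM) (hm : Mult E m) (hS : ∀ k, E.p k ∉ S) (D₀ : ℤ) (hD₀ : Squarefree D₀)
    (hp₀ : ∀ k, ¬ (E.p k : ℤ) ∣ D₀) (C : ℤ → Prop) (hC : ∀ D, C D ↔ Squarefree D ∧ E.Cond S D₀ D) :
    (∃ c : ℝ, 0 < c ∧
      Tendsto (fun X : ℕ => ({D : ℤ | |D| ≤ X ∧ C D}.ncard : ℝ) / X) atTop (𝓝 c)) ∧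
    ∀ 𝒜 : Set (κ → μ → ℕ), ∀ ε : ℝ, 0 < ε → ∀ᶠ X : ℕ in atTop,
      ((∑' e : κ → μ → ℕ, if e ∈ 𝒜 then lawV e else 0) - ε) *
        ({D : ℤ | |D| ≤ X ∧ C D}.ncard : ℝ) ≤
        ({D : ℤ | (|D| ≤ X ∧ C D) ∧ ∃ e ∈ 𝒜, BddM E m D e}.ncard : ℝ) := by
  have h0 : ∀ 𝒜 : Set (κ → μ → ℕ), ∃ G : ℤ → Prop, ∀ D, G D ↔ ∃ e ∈ 𝒜, BddM E m D e :=
    fun 𝒜 => ⟨_, fun _ => Iff.rfl⟩
  constructor
  · obtain ⟨G, hG⟩ := h0 ∅
    obtain ⟨⟨c, hc, h1⟩, -⟩ := allM E S H hm hS D₀ hD₀ hp₀ C hC ∅ G hG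
    refine ⟨c, hc, h1.congr fun X => ?_⟩
    rw [ncard_Icc]
  · intro 𝒜 ε hε
    obtain ⟨G, hG⟩ := h0 𝒜
    obtain ⟨-, h2⟩ := allM E S H hm hS D₀ hD₀ hp₀ C hC 𝒜 G hG
    filter_upwards [h2 ε hε] with X hX
    rw [ncard_Icc]
    have e : {D : ℤ | (|D| ≤ X ∧ C D) ∧ ∃ e ∈ 𝒜, BddM E m D e} =
        {D : ℤ | |D| ≤ X ∧ (C D ∧ G D)} := by
      ext D
      rw [Set.mem_ofPred_eq, Set.mem_ofPred_eq, hG, and_assoc]
    rw [e]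
    rw [ncard_Icc X (fun D => C D ∧ G D) (i := fun D => instDecidableAnd)]
    exact hX

end Q44.JQ.M
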