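import Pool.Agent.Q44.JQ.M.Set
import Pool.Agent.Q44.JQ.W.Tot

/-!
# The package for several curves and several multipliers
-/

set_option autoImplicit false
set_option linter.unusedSectionVars false

open scoped Classical Topology

namespace Q44.JQ.M

open Finset Module Filter
open Q44.JQ Q44.JQ.W
open Pool.Agent.Y703.CQ (nr)
open Pool.Agent.TH344.JG (LocJ SelJ PR df)
open Pool.Agent.Y723.PT (tw)

variable {T T' : Finset ℕ} (h : T ⊆ T') {κ ℳ : Type} (F : Fm T κ) (Mu : Ml T T' ℳ) (L : LB T)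
  (L' : LB T')

/-- a change of the class at `T'` is a change of the class at `T` -/
theorem Tt_rs {q : T} {t : ℕ} (ht : Tt T' ⟨q, h q.2⟩ t) : Tt T q t := by
  obtain ⟨h1, h2, h3⟩ := ht
  exact ⟨fun p hp => h1 p (h hp), fun p _ hp hne => h2 p (h hp) hne, h3⟩

theorem cop_rs (h : T ⊆ T') {n : ℕ} (hn : Cop T' n) : Cop T n := fun p hp => hn p (h hp)

/-- the curves over `T'` -/
noncomputable def ce (F : Fm T κ) (γ : Option T → ZMod 2) (k : κ) : Cr T' := (F.cu L γ k).ex h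

include L' in
theorem adj_M [Fintype κ] [Fintype ℳ] (hADJM : S_ADJM) {γ : Option T → ZMod 2} (hγ : F.Gk γ)
    (M : ℳ → Finset ℕ) (hM : ∀ m, M m ⊆ T' \ T)
    (hsep : ∀ m m', m ≠ m' → ∃ q ∈ T' \ T, ¬ (q ∈ M m ↔ q ∈ M m'))
    (hw : ∀ m, (∏ q ∈ M m, (q : ℤ)) ≠ 0)
    (hs : ∀ m, ∀ p : ℕ, p.Prime → (p : ℤ) ∣ ∏ q ∈ M m, (q : ℤ) → p ∈ T')
    (𝓛 : ∀ x : κ × ℳ, Submodule (ZMod 2) ((Option T' → (ce h L F γ x.1).V) ×
      (Option T' → (ce h L F γ x.1).V))) :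
    Adj2 (V := fun x : κ × ℳ => (ce h L F γ x.1).V) fun x =>
      ((ce h L F γ x.1).mul (∏ q ∈ M x.2, (q : ℤ)) (hw x.2) (hs x.2)).dj (𝓛 x) := by
  refine hADJM T' L'.pr L'.two κ ℳ (fun k => ce h L F γ k) (fun k => ⟨F.p k, h (F.p k).2⟩) F.i
    (fun m => ∏ q ∈ M m, (q : ℤ)) hw hs ?_ ?_ ?_ ?_ ?_ 𝓛
  · intro k
    exact irr_ex h (irr_mul L (F.irr k) _ _ _)
  · intro k
    exact F.cu_nice L hγ k
  · intro k l hkl
    exact F.cu_good L hγ hkl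
  · intro k m hd
    have hp := prod_sup L' (hM m) _ (L.pr (F.p k) (F.p k).2) hd
    exact (pos_of L' (hM m) _ hp).2.2 (F.p k).2
  · intro m m' hm
    obtain ⟨q, hq, hne⟩ := hsep m m' hm
    have hqp := L'.pr q (mem_sdiff.1 hq).1
    refine ⟨⟨q, (mem_sdiff.1 hq).1⟩, fun k => ⟨?_, ?_⟩, ?_⟩
    · rintro rfl
      exact (mem_sdiff.1 hq).2 L.two
    · intro i j hij hd
      exact (mem_sdiff.1 hq).2 ((F.cu L γ k).supp i j hij q hqp hd)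
    · show ((padicValInt q (∏ q ∈ M m, (q : ℤ)) : ℕ) : ZMod 2) ≠
        ((padicValInt q (∏ q ∈ M m', (q : ℤ)) : ℕ) : ZMod 2)
      rw [prod_val L' (hM m) q hqp, prod_val L' (hM m') q hqp]
      by_cases h1 : q ∈ M m
      · by_cases h2 : q ∈ M m'
        · exact absurd ⟨fun _ => h2, fun _ => h1⟩ hne
        · rw [if_pos h1, if_neg h2]
          decide
      · by_cases h2 : q ∈ M m'
        · rw [if_neg h1, if_pos h2]
          decide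
        · exact absurd ⟨fun h => absurd h h1, fun h => absurd h h2⟩ hne

include L L' in
theorem pkgM [Fintype κ] [Fintype ℳ] (hARX : S_ARX) (hADJM : S_ADJM) (hCHT : S_CHT) (hOMV : S_OMV)
    (hLAJ : S_LAJ2) {γ : Option T' → ZMod 2} (hγ : F.Gk (rs h γ)) :
    ∃ (dm : κ → ℳ → (Option T' → ZMod 2) → ℕ → ℕ) (π : κ → (Option T' → ZMod 2) → ZMod 2),
      (∀ k m n, Squarefree n → Cop T' n →
        (SelJ (tw (Uo (rs h γ) * ((∏ q ∈ Mu.Mg γ m, (q : ℤ)) * n)) (F.c k).a)).Finite ∧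
        (SelJ (tw (Uo (rs h γ) * ((∏ q ∈ Mu.Mg γ m, (q : ℤ)) * n)) (F.c k).a)).ncard ≤
          2 ^ dm k m (lbl T' n) n) ∧
      (∀ ρ (r : κ → ℳ → ℕ) (Q : ℕ → Prop),
        (∀ n, Q n ↔ ∀ k m, dm k m ρ n = 2 * (F.c k).g + r k m) →
        Tendsto (fun X : ℕ => (((Icc 1 X).filter fun n => Dn T' ρ n ∧ Q n).card : ℝ) /
          (((Icc 1 X).filter fun n => Dn T' ρ n).card : ℝ)) atTop
          (𝓝 (∏ k, ∏ m, lawc (π k ρ) (r k m)))) ∧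
      (∀ k l ρ t, Tt T' ⟨F.p k, h (F.p k).2⟩ t →
        π l (ρ + lbl T' t) = π l ρ + if l = k then 1 else 0) := by
  have h1 : ∀ k, ∃ 𝓛 : (Option T → ZMod 2) →
      Submodule (ZMod 2) ((Option T → (F.cu L (rs h γ) k).V) × (Option T → (F.cu L (rs h γ) k).V)),
    (∀ ρ, ((F.cu L (rs h γ) k).dj (𝓛 ρ)).Ok ρ) ∧
    (∀ ρ, ∀ S : Finset ℕ, (∀ p ∈ S, p.Prime ∧ p ∉ T) → ∑ p ∈ S, lbl T p = ρ →
      (SelJ (tw ((∏ q ∈ S, q : ℕ) : ℤ) (F.cu L (rs h γ) k).a)).Finite ∧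
      (SelJ (tw ((∏ q ∈ S, q : ℕ) : ℤ) (F.cu L (rs h γ) k).a)).ncard ≤
        Nat.card (Sel ((F.cu L (rs h γ) k).dj (𝓛 ρ)) (fun p q : S => nr p q)
          (fun p : S => lbl T p))) ∧
    ∀ (ρ : Option T → ZMod 2) (q : T), (q = F.p k ∨ q ∈ univ.image F.p \ {F.p k}) → ∀ t : ℕ, Cop T t →
      (∀ (p : ℕ) [Fact p.Prime], p ∈ T → p ≠ q → IsSquare (t : ℚ_[p])) →
      ¬ IsSquare ((t : ℕ) : ZMod q) →
      ((finrank (ZMod 2) ((F.cu L (rs h γ) k).dj (𝓛 (ρ + lbl T t))).pm : ℕ) : ZMod 2) =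
        ((finrank (ZMod 2) ((F.cu L (rs h γ) k).dj (𝓛 ρ)).pm : ℕ) : ZMod 2) +
          if q = F.p k then 1 else 0 := by
    intro k
    refine hARX T L.pr L.two (F.cu L (rs h γ) k) (F.p k) (F.i k) (univ.image F.p \ {F.p k})
      (F.cu_nice L hγ k) ?_
    intro q hq
    obtain ⟨h1, h2⟩ := mem_sdiff.1 hq
    obtain ⟨l, -, rfl⟩ := mem_image.1 h1
    exact F.cu_good L hγ fun h => h2 (mem_singleton.2 (congrArg F.p h).symm)
  choose 𝓛 hO hS hfl using h1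
  have hsub := Mu.Mg_sub γ
  have hw : ∀ m, (∏ q ∈ Mu.Mg γ m, (q : ℤ)) ≠ 0 := fun m => prod_ne L' (hsub m)
  have hs : ∀ m, ∀ p : ℕ, p.Prime → (p : ℤ) ∣ ∏ q ∈ Mu.Mg γ m, (q : ℤ) → p ∈ T' :=
    fun m p hp hd => (pos_of L' (hsub m) p (prod_sup L' (hsub m) p hp hd)).2.1
  have h2 : ∀ k m (ρ : Option T' → ZMod 2), ∃ 𝓛' : Submodule (ZMod 2)
      ((Option T' → (F.cu L (rs h γ) k).V) × (Option T' → (F.cu L (rs h γ) k).V)),
    (((ce h L F (rs h γ) k).mul (∏ q ∈ Mu.Mg γ m, (q : ℤ)) (hw m) (hs m)).dj 𝓛').Ok ρ ∧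
    ((finrank (ZMod 2) (((ce h L F (rs h γ) k).mul (∏ q ∈ Mu.Mg γ m, (q : ℤ)) (hw m)
      (hs m)).dj 𝓛').pm : ℕ) : ZMod 2) =
      ((finrank (ZMod 2) ((F.cu L (rs h γ) k).dj
        (𝓛 k (rs h ρ + lbl T (∏ q ∈ Mu.Mg γ m, q)))).pm : ℕ) : ZMod 2) ∧
    ∀ S : Finset ℕ, (∀ p ∈ S, p.Prime ∧ p ∉ T') → ∑ p ∈ S, lbl T' p = ρ →
      Nat.card (Sel ((F.cu L (rs h γ) k).dj (𝓛 k (rs h ρ + lbl T (∏ q ∈ Mu.Mg γ m, q))))
        (fun p q : ↥(S ∪ Mu.Mg γ m) => nr p q) (fun p : ↥(S ∪ Mu.Mg γ m) => lbl T p)) =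
        Nat.card (Sel (((ce h L F (rs h γ) k).mul (∏ q ∈ Mu.Mg γ m, (q : ℤ)) (hw m) (hs m)).dj 𝓛')
          (fun p q : S => nr p q) (fun p : S => lbl T' p)) := by
    intro k m ρ
    exact hCHT T T' h L'.pr L.two (Mu.Mg γ m) (hsub m) (hw m) (hs m) (F.cu L (rs h γ) k) ρ _ (hO k _)
  choose 𝓛' hO' hπ' hc' using h2
  have hfr : ∀ k, finrank (ZMod 2) (ce h L F (rs h γ) k).V = 2 * (F.c k).g := fun k =>
    (hOMV T' (ce h L F (rs h γ) k) ⊥).2.2.2.1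
  haveI : ∀ x : κ × ℳ, Nontrivial (ce h L F (rs h γ) x.1).V := fun x =>
    (hOMV T' (ce h L F (rs h γ) x.1) ⊥).2.2.2.2
  refine ⟨fun k m ρ n => dmS (((ce h L F (rs h γ) k).mul (∏ q ∈ Mu.Mg γ m, (q : ℤ)) (hw m)
      (hs m)).dj (𝓛' k m ρ)) n.primeFactors,
    fun k ρ => ((finrank (ZMod 2) ((F.cu L (rs h γ) k).dj
      (𝓛 k (rs h ρ + lbl T (∏ q ∈ Qs T γ, q)))).pm : ℕ) : ZMod 2), ?_, ?_, ?_⟩
  · intro k m n hn hc
    have hp' : ∀ p ∈ n.primeFactors, p.Prime ∧ p ∉ T' := fun p hp =>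
      ⟨Nat.prime_of_mem_primeFactors hp, fun h => hc p h (Nat.dvd_of_mem_primeFactors hp)⟩
    have hcT := cop_rs h hc
    have hl := L'.lbl_prod n.primeFactors fun p h => (L'.toTS.prime_cop (hp' p h).1).2 (hp' p h).2
    rw [Nat.prod_primeFactors_of_squarefree hn] at hl
    have hlT := L.lbl_prod n.primeFactors fun p hp =>
      (L.toTS.prime_cop (hp' p hp).1).2 fun hpT => (hp' p hp).2 (h hpT)
    rw [Nat.prod_primeFactors_of_squarefree hn] at hlT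
    have hdis : Disjoint n.primeFactors (Mu.Mg γ m) := by
      rw [disjoint_left]
      intro p hp hpm
      exact (hp' p hp).2 (pos_of L' (hsub m) p hpm).2.1
    have hSp : ∀ p ∈ n.primeFactors ∪ Mu.Mg γ m, p.Prime ∧ p ∉ T := by
      intro p hp
      rcases mem_union.1 hp with hp | hp
      · exact ⟨(hp' p hp).1, fun hpT => (hp' p hp).2 (h hpT)⟩
      · exact ⟨(pos_of L' (hsub m) p hp).1, (pos_of L' (hsub m) p hp).2.2⟩
    have hρ : ∑ p ∈ n.primeFactors ∪ Mu.Mg γ m, lbl T p =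
        rs h (lbl T' n) + lbl T (∏ q ∈ Mu.Mg γ m, q) := by
      rw [sum_union hdis, ← hlT.2, (lbl_sum L' L (hsub m)).2, rs_lbl]
    have h2 := hS k _ (n.primeFactors ∪ Mu.Mg γ m) hSp hρ
    have h3 := hc' k m (lbl T' n) n.primeFactors hp' hl.2.symm
    have e : tw (Uo (rs h γ) * ((∏ q ∈ Mu.Mg γ m, (q : ℤ)) * n)) (F.c k).a =
        tw ((∏ q ∈ n.primeFactors ∪ Mu.Mg γ m, q : ℕ) : ℤ) (F.cu L (rs h γ) k).a := by
      rw [prod_union hdis, Nat.prod_primeFactors_of_squarefree hn]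
      funext i
      show Uo (rs h γ) * ((∏ q ∈ Mu.Mg γ m, (q : ℤ)) * n) * (F.c k).a i =
        ((n * ∏ q ∈ Mu.Mg γ m, q : ℕ) : ℤ) * (Uo (rs h γ) * (F.c k).a i)
      push_cast
      ring
    rw [e]
    refine ⟨h2.1, h2.2.trans (le_of_eq ?_)⟩
    rw [h3]
    unfold dmS
    rw [Module.natCard_eq_pow_finrank (K := ZMod 2), Nat.card_zmod]
  · intro ρ r Q hQ
    have h3 := Q44.JQ.W.law_nat L' hLAJ (κ := κ × ℳ) (V := fun x => (ce h L F (rs h γ) x.1).V)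
      (ρ := ρ) (D := fun x => ((ce h L F (rs h γ) x.1).mul (∏ q ∈ Mu.Mg γ x.2, (q : ℤ)) (hw x.2)
        (hs x.2)).dj (𝓛' x.1 x.2 ρ)) (fun x => rfl) (fun x => hO' x.1 x.2 ρ)
      (adj_M h F L L' hADJM hγ (Mu.Mg γ) hsub (fun m m' hm => Mu.Mg_ne γ hm) hw hs
        fun x => 𝓛' x.1 x.2 ρ) (fun x => r x.1 x.2) Q (by
        intro n
        rw [hQ]
        constructor
        · intro h4 x
          rw [hfr x.1]
          exact h4 x.1 x.2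
        · intro h4 k m
          have h5 := h4 (k, m)
          rw [hfr k] at h5
          exact h5)
    have e : ∏ x : κ × ℳ, lawc ((finrank (ZMod 2) (((ce h L F (rs h γ) x.1).mul
        (∏ q ∈ Mu.Mg γ x.2, (q : ℤ)) (hw x.2) (hs x.2)).dj (𝓛' x.1 x.2 ρ)).pm : ℕ) : ZMod 2)
        (r x.1 x.2) = ∏ k, ∏ m, lawc ((finrank (ZMod 2) ((F.cu L (rs h γ) k).dj
      (𝓛 k (rs h ρ + lbl T (∏ q ∈ Qs T γ, q)))).pm : ℕ) : ZMod 2) (r k m) := by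
      rw [Fintype.prod_prod_type]
      refine prod_congr rfl fun k _ => prod_congr rfl fun m _ => ?_
      rw [hπ' k m ρ, Mu.lbl_Mg L' L γ m]
    exact e ▸ h3
  · intro k l ρ t ht
    have h2 := hfl l (rs h ρ + lbl T (∏ q ∈ Qs T γ, q)) (F.p k) (by
      by_cases h : k = l
      · exact Or.inl (congrArg F.p h)
      · refine Or.inr (mem_sdiff.2 ⟨mem_image_of_mem _ (mem_univ _), fun h' => h ?_⟩)
        exact F.p_inj (mem_singleton.1 h')) t (Tt_rs h ht).1 (Tt_rs h ht).2.1 (Tt_rs h ht).2.2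
    show ((finrank (ZMod 2) ((F.cu L (rs h γ) l).dj (𝓛 l (rs h (ρ + lbl T' t) +
      lbl T (∏ q ∈ Qs T γ, q)))).pm : ℕ) : ZMod 2) =
      ((finrank (ZMod 2) ((F.cu L (rs h γ) l).dj (𝓛 l (rs h ρ +
        lbl T (∏ q ∈ Qs T γ, q)))).pm : ℕ) : ZMod 2) + if l = k then 1 else 0
    rw [rs_add, rs_lbl, add_right_comm, h2]
    congr 1
    by_cases h : l = k
    · rw [if_pos h, if_pos (congrArg F.p h).symm]
    · rw [if_neg h, if_neg fun h' => h (F.p_inj h').symm]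

end Q44.JQ.M
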