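import Pool.Agent.Q44.JQ.W.Pkg
import Pool.Agent.Q44.JQ.StmF

/-!
# The package for several curves and several multipliers
-/

set_option autoImplicit false
set_option linter.unusedSectionVars false

open scoped Classical Topology

namespace Q44.JQ.M

open Finset Module Filter
open Q44.JQ Q44.JQ.W
open Pool.Agent.Y703.CQ (nr)
open Pool.Agent.TH344.JG (LocJ SelJ PR df)
open Pool.Agent.Y723.PT (tw)

variable {T T' : Finset ℕ} (h : T ⊆ T')

/-! ### Labels -/

theorem inT_none : inT h none = none := rfl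

theorem inT_some (t : T) : inT h (some t) = some ⟨t, h t.2⟩ := rfl

theorem inT_inj : Function.Injective (inT h) := Option.map_injective fun a b hab =>
  Subtype.ext (congrArg Subtype.val hab :)

theorem tv_inT (o : Option T) : tv (inT h o) = tv o := by
  cases o <;> rfl

theorem rs_lbl (n : ℕ) : rs h (lbl T' n) = lbl T n := by
  funext o
  show Q44.BN.jv (tv (inT h o)) n = Q44.BN.jv (tv o) n
  rw [tv_inT]

theorem rs_add (ρ ρ' : Option T' → ZMod 2) : rs h (ρ + ρ') = rs h ρ + rs h ρ' := rfl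

theorem ct_inT (z : ℤ) (o : Option T) : (ct z : Option T' → ZMod 2) (inT h o) = ct z o := by
  cases o <;> rfl

/-- extension of a label by zero -/
noncomputable def ez (φ : Option T → ZMod 2) : Option T' → ZMod 2 :=
  fun o' => ∑ o, if inT h o = o' then φ o else 0

theorem pr_ez (φ : Option T → ZMod 2) (z : ℤ) :
    (∑ o', ez h φ o' * (ct z : Option T' → ZMod 2) o') = ∑ o, φ o * ct z o := by
  unfold ez
  simp only [sum_mul]
  rw [sum_comm]
  refine sum_congr rfl fun o _ => ?_
  rw [Finset.sum_eq_single (inT h o)]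
  · rw [if_pos rfl, ct_inT]
  · intro o' _ hne
    rw [if_neg hne.symm, zero_mul]
  · intro h'
    exact absurd (mem_univ _) h'

theorem ez_none (φ : Option T → ZMod 2) : ez h φ none = φ none := by
  unfold ez
  rw [Finset.sum_eq_single (none : Option T)]
  · rw [inT_none, if_pos rfl]
  · intro o _ hne
    refine if_neg fun h' => hne ?_
    exact inT_inj h (h'.trans (inT_none h).symm)
  · intro h'
    exact absurd (mem_univ _) h'

/-! ### Irreducibility -/

theorem irr_ex {c : Cr T} (hc : c.Irr) : (c.ex h).Irr := by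
  have h1 : (Algebra.adjoin (ZMod 2) (Set.range fun φ : Option T → ZMod 2 =>
      (c.TT φ : Module.End (ZMod 2) c.V)) : Subalgebra (ZMod 2) (Module.End (ZMod 2) c.V)) ≤
      Algebra.adjoin (ZMod 2) (Set.range fun φ : Option T' → ZMod 2 =>
        ((c.ex h).TT φ : Module.End (ZMod 2) c.V)) := by
    refine Algebra.adjoin_mono ?_
    rintro _ ⟨φ, rfl⟩
    refine ⟨ez h φ, ?_⟩
    refine LinearMap.ext fun x => Subtype.ext (funext fun i => ?_)
    show (c.ex h).tf (ez h φ) x.1 i = c.tf φ x.1 i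
    unfold Cr.tf pr
    rw [ez_none]
    congr 1
    refine sum_congr rfl fun j _ => ?_
    congr 1
    exact pr_ez h φ _
  have h2 : (Algebra.adjoin (ZMod 2) (Set.range fun φ : Option T → ZMod 2 =>
      (c.TT φ : Module.End (ZMod 2) c.V)) : Subalgebra (ZMod 2) (Module.End (ZMod 2) c.V)) = ⊤ := hc
  rw [h2] at h1
  exact top_le_iff.1 h1

theorem sum_erase_V (c : Cr T) (x : Fin (2 * c.g + 1) → ZMod 2) (hx : ∑ i, x i = 0)
    (i : Fin (2 * c.g + 1)) : ∑ j ∈ univ.erase i, (x i + x j) = x i := by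
  rw [sum_add_distrib, sum_const, card_erase_of_mem (mem_univ i), card_univ, Fintype.card_fin,
    Nat.add_sub_cancel, nsmul_eq_mul]
  have h3 := Finset.add_sum_erase univ x (mem_univ i)
  rw [hx] at h3
  have h4 : ((2 * c.g : ℕ) : ZMod 2) = 0 := by
    rw [Nat.cast_mul]
    have : ((2 : ℕ) : ZMod 2) = 0 := by decide
    rw [this, zero_mul]
  rw [h4, zero_mul, zero_add]
  have h5 : ∀ a b : ZMod 2, a + b = 0 → b = a := by decide
  exact h5 _ _ h3

theorem tf_mul (L : LB T) (c : Cr T) (u : ℤ) (hu : u ≠ 0)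
    (hs : ∀ p : ℕ, p.Prime → (p : ℤ) ∣ u → p ∈ T) (φ : Option T → ZMod 2)
    (x : Fin (2 * c.g + 1) → ZMod 2) (hx : ∑ i, x i = 0) (i : Fin (2 * c.g + 1)) :
    (c.mul u hu hs).tf φ x i = c.tf φ x i + pr φ u * x i := by
  have h1 : ∀ j ∈ univ.erase i, pr φ (u * c.a i - u * c.a j) * (x i + x j) =
      pr φ (c.a i - c.a j) * (x i + x j) + pr φ u * (x i + x j) := by
    intro j hj
    have hij : i ≠ j := (mem_erase.1 hj).1.symm
    have e : u * c.a i - u * c.a j = u * (c.a i - c.a j) := by ring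
    have e2 : pr φ (u * (c.a i - c.a j)) = pr φ u + pr φ (c.a i - c.a j) := by
      unfold pr
      rw [L.ct_mul _ _ hu (sub_ne_zero.2 fun h => hij (c.inj h)), ← sum_add_distrib]
      refine sum_congr rfl fun o _ => ?_
      rw [Pi.add_apply]
      ring
    rw [e, e2]
    ring
  have h2 : ∑ j ∈ univ.erase i, pr φ (u * c.a i - u * c.a j) * (x i + x j) =
      ∑ j ∈ univ.erase i, pr φ (c.a i - c.a j) * (x i + x j) + pr φ u * x i := by
    rw [sum_congr rfl h1, sum_add_distrib, ← mul_sum, sum_erase_V c x hx]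
  show ∑ j ∈ univ.erase i, pr φ (u * c.a i - u * c.a j) * (x i + x j) + φ none * x i =
    ∑ j ∈ univ.erase i, pr φ (c.a i - c.a j) * (x i + x j) + φ none * x i + pr φ u * x i
  rw [h2]
  ring

theorem irr_mul (L : LB T) {c : Cr T} (hc : c.Irr) (u : ℤ) (hu : u ≠ 0)
    (hs : ∀ p : ℕ, p.Prime → (p : ℤ) ∣ u → p ∈ T) : (c.mul u hu hs).Irr := by
  have h1 : (Algebra.adjoin (ZMod 2) (Set.range fun φ : Option T → ZMod 2 =>
      (c.TT φ : Module.End (ZMod 2) c.V)) : Subalgebra (ZMod 2) (Module.End (ZMod 2) c.V)) ≤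
      Algebra.adjoin (ZMod 2) (Set.range fun φ : Option T → ZMod 2 =>
        ((c.mul u hu hs).TT φ : Module.End (ZMod 2) c.V)) := by
    refine Algebra.adjoin_le ?_
    rintro _ ⟨φ, rfl⟩
    have h1 : ((c.mul u hu hs).TT φ : Module.End (ZMod 2) c.V) ∈
        Algebra.adjoin (ZMod 2) (Set.range fun φ : Option T → ZMod 2 =>
          ((c.mul u hu hs).TT φ : Module.End (ZMod 2) c.V)) :=
      Algebra.subset_adjoin ⟨φ, rfl⟩
    have h2 := Subalgebra.sub_mem _ h1 (Subalgebra.smul_mem _ (Subalgebra.one_mem _) (pr φ u))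
    have e : ((c.mul u hu hs).TT φ : Module.End (ZMod 2) c.V) - pr φ u • 1 =
        (c.TT φ : Module.End (ZMod 2) c.V) := by
      refine LinearMap.ext fun x => Subtype.ext (funext fun i => ?_)
      show (c.mul u hu hs).tf φ x.1 i - pr φ u * x.1 i = c.tf φ x.1 i
      rw [tf_mul L c u hu hs φ x.1 (mem_VV.1 x.2) i, add_sub_cancel_right]
    rw [e] at h2
    exact h2
  have h2 : (Algebra.adjoin (ZMod 2) (Set.range fun φ : Option T → ZMod 2 =>
      (c.TT φ : Module.End (ZMod 2) c.V)) : Subalgebra (ZMod 2) (Module.End (ZMod 2) c.V)) = ⊤ := hc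
  rw [h2] at h1
  exact top_le_iff.1 h1

end Q44.JQ.M
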