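import Pool.Agent.Q44.JQ.M.Pkg

/-!
# The primes of the multipliers
-/

set_option autoImplicit false
set_option linter.unusedSectionVars false

open scoped Classical Topology

namespace Q44.JQ.M

open Finset Module Filter
open Q44.JQ Q44.JQ.W
open Pool.Agent.Y703.CQ (nr)
open Pool.Agent.TH344.JG (LocJ SelJ PR df)
open Pool.Agent.Y723.PT (tw)

variable {T T' : Finset ℕ} (h : T ⊆ T')

/-- the primes in `T' \ T` of the class `γ` -/
noncomputable def Qs (T : Finset ℕ) {T' : Finset ℕ} (γ : Option T' → ZMod 2) : Finset ℕ :=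
  (T' \ T).filter fun q => ∃ hq : q ∈ T', γ (some ⟨q, hq⟩) ≠ 0

theorem Qs_sub (γ : Option T' → ZMod 2) : Qs T γ ⊆ T' \ T := filter_subset _ _

/-- the contribution of a prime -/
noncomputable def fc {T' : Finset ℕ} (γ : Option T' → ZMod 2) (q : ℕ) : ℤ :=
  if ∃ hq : q ∈ T', γ (some ⟨q, hq⟩) ≠ 0 then (q : ℤ) else 1

theorem fc_eq (γ : Option T' → ZMod 2) (t : T') :
    (if γ (some t) = 0 then (1 : ℤ) else tv (some t)) = fc γ t := by
  unfold fc
  by_cases h0 : γ (some t) = 0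
  · rw [if_pos h0, if_neg]
    rintro ⟨hq, h1⟩
    exact h1 h0
  · rw [if_neg h0, if_pos ⟨t.2, h0⟩]
    rfl

theorem Uo_eq (γ : Option T' → ZMod 2) :
    Uo γ = (if γ none = 0 then 1 else -1) * ∏ q ∈ T', fc γ q := by
  unfold Uo
  rw [Fintype.prod_option, ← Finset.prod_coe_sort T']
  congr 1
  exact prod_congr rfl fun t _ => fc_eq γ t

theorem Uo_rs (γ : Option T' → ZMod 2) :
    Uo (rs h γ) = (if γ none = 0 then 1 else -1) * ∏ q ∈ T, fc γ q := by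
  unfold Uo
  rw [Fintype.prod_option, ← Finset.prod_coe_sort T]
  congr 1
  exact prod_congr rfl fun t _ => fc_eq γ ⟨t, h t.2⟩

theorem Uo_split (γ : Option T' → ZMod 2) : Uo γ = Uo (rs h γ) * ∏ q ∈ Qs T γ, (q : ℤ) := by
  rw [Uo_eq, Uo_rs, mul_assoc]
  congr 1
  rw [← Finset.prod_sdiff h, mul_comm]
  congr 1
  unfold Qs
  rw [Finset.prod_filter]
  rfl

/-- sums over symmetric differences -/
theorem sum_sd {A : Type} [AddCommGroup A] [Module (ZMod 2) A] (P Q : Finset ℕ) (f : ℕ → A) :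
    ∑ q ∈ symmDiff P Q, f q = ∑ q ∈ P, f q + ∑ q ∈ Q, f q := by
  have h1 := Finset.sum_inter_add_sum_sdiff P Q f
  have h2 := Finset.sum_inter_add_sum_sdiff Q P f
  have h3 : symmDiff P Q = (P \ Q) ∪ (Q \ P) := rfl
  rw [h3, sum_union]
  · rw [← h1, ← h2, inter_comm Q P]
    have h4 : ∑ q ∈ P ∩ Q, f q + ∑ q ∈ P ∩ Q, f q = 0 := by
      rw [← two_smul (ZMod 2) (∑ q ∈ P ∩ Q, f q)]
      have : (2 : ZMod 2) = 0 := by decide
      rw [this, zero_smul]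
    calc ∑ q ∈ P \ Q, f q + ∑ q ∈ Q \ P, f q
        = (∑ q ∈ P ∩ Q, f q + ∑ q ∈ P ∩ Q, f q) + (∑ q ∈ P \ Q, f q + ∑ q ∈ Q \ P, f q) := by
          rw [h4, zero_add]
      _ = _ := by abel
  · rw [disjoint_left]
    intro x hx hx'
    exact (mem_sdiff.1 hx').2 (mem_sdiff.1 hx).1

/-- products over symmetric differences -/
theorem prod_sd (P Q : Finset ℕ) : (∏ q ∈ P, (q : ℤ)) * ∏ q ∈ Q, (q : ℤ) =
    (∏ q ∈ symmDiff P Q, (q : ℤ)) * (∏ q ∈ P ∩ Q, (q : ℤ)) ^ 2 := by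
  have h1 := Finset.prod_inter_mul_prod_sdiff P Q (fun q : ℕ => (q : ℤ))
  have h2 := Finset.prod_inter_mul_prod_sdiff Q P (fun q : ℕ => (q : ℤ))
  have h3 : symmDiff P Q = (P \ Q) ∪ (Q \ P) := rfl
  rw [h3, prod_union]
  · rw [← h1, ← h2, inter_comm Q P]
    ring
  · rw [disjoint_left]
    intro x hx hx'
    exact (mem_sdiff.1 hx').2 (mem_sdiff.1 hx).1

/-- the sets of primes of the multipliers -/
structure Ml (T T' : Finset ℕ) (ℳ : Type) where
  M : ℳ → Finset ℕ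
  sub : ∀ m, M m ⊆ T' \ T
  inj : Function.Injective M
  lb : ∀ m, lbl T (∏ q ∈ M m, q) = 0

variable {ℳ : Type} (Mu : Ml T T' ℳ)

/-- the primes of the multiplier in the class `γ` -/
noncomputable def Ml.Mg (γ : Option T' → ZMod 2) (m : ℳ) : Finset ℕ := symmDiff (Qs T γ) (Mu.M m)

theorem Ml.Mg_sub (γ : Option T' → ZMod 2) (m : ℳ) : Mu.Mg γ m ⊆ T' \ T := by
  intro q hq
  rcases Finset.mem_symmDiff.1 hq with h1 | h1
  · exact Qs_sub γ h1.1
  · exact Mu.sub m h1.1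

theorem Ml.Mg_ne (γ : Option T' → ZMod 2) {m m' : ℳ} (hm : m ≠ m') :
    ∃ q ∈ T' \ T, ¬ (q ∈ Mu.Mg γ m ↔ q ∈ Mu.Mg γ m') := by
  by_contra hc
  push Not at hc
  apply hm
  apply Mu.inj
  ext q
  by_cases hq : q ∈ T' \ T
  · have h1 := hc q hq
    unfold Ml.Mg at h1
    rw [Finset.mem_symmDiff, Finset.mem_symmDiff] at h1
    tauto
  · exact ⟨fun h1 => absurd (Mu.sub m h1) hq, fun h1 => absurd (Mu.sub m' h1) hq⟩

variable (L' : LB T') (L : LB T)

include L' in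
theorem pos_of {P : Finset ℕ} (hP : P ⊆ T' \ T) (p : ℕ) (hp : p ∈ P) : p.Prime ∧ p ∈ T' ∧ p ∉ T := by
  have h1 := mem_sdiff.1 (hP hp)
  exact ⟨L'.pr p h1.1, h1.1, h1.2⟩

include L' in
theorem prod_ne {P : Finset ℕ} (hP : P ⊆ T' \ T) : (∏ q ∈ P, (q : ℤ)) ≠ 0 :=
  prod_ne_zero_iff.2 fun q hq => by exact_mod_cast (pos_of L' hP q hq).1.ne_zero

include L' in
theorem prod_sup {P : Finset ℕ} (hP : P ⊆ T' \ T) (p : ℕ) (hp : p.Prime)
    (hd : (p : ℤ) ∣ ∏ q ∈ P, (q : ℤ)) : p ∈ P := by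
  obtain ⟨q, hq, hd'⟩ := (Nat.prime_iff_prime_int.1 hp).exists_mem_finset_dvd hd
  have h1 := (Nat.prime_dvd_prime_iff_eq hp (pos_of L' hP q hq).1).1 (Int.natCast_dvd_natCast.1 hd')
  rw [h1]
  exact hq

include L' in
theorem prod_val {P : Finset ℕ} (hP : P ⊆ T' \ T) (q : ℕ) (hq : q.Prime) :
    ((padicValInt q (∏ q ∈ P, (q : ℤ)) : ℕ) : ZMod 2) = if q ∈ P then 1 else 0 := by
  haveI := Fact.mk hq
  have e : (∏ q ∈ P, (q : ℤ)) = ((∏ q ∈ P, q : ℕ) : ℤ) := by push_cast; rfl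
  rw [e, padicValInt.of_nat]
  have h1 : padicValNat q (∏ q ∈ P, q) = ∑ p ∈ P, padicValNat q p := by
    clear e
    induction P using Finset.induction_on with
    | empty => simp
    | insert a s ha ih =>
      have hs : s ⊆ T' \ T := fun x hx => hP (mem_insert_of_mem hx)
      rw [prod_insert ha, sum_insert ha, padicValNat.mul, ih hs]
      · exact (pos_of L' hP a (mem_insert_self _ _)).1.ne_zero
      · exact prod_ne_zero_iff.2 fun q hq => (pos_of L' hs q hq).1.ne_zero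
  rw [h1]
  by_cases hqP : q ∈ P
  · rw [if_pos hqP, Finset.sum_eq_single q]
    · rw [padicValNat_self, Nat.cast_one]
    · intro b hb hbq
      exact (padicValNat_primes (hq := Fact.mk (pos_of L' hP b hb).1) hbq.symm)
    · exact fun h => absurd hqP h
  · rw [if_neg hqP, Finset.sum_eq_zero, Nat.cast_zero]
    intro b hb
    exact padicValNat_primes (hq := Fact.mk (pos_of L' hP b hb).1) fun h => hqP (h ▸ hb)

include L' L in
theorem lbl_sum {P : Finset ℕ} (hP : P ⊆ T' \ T) :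
    Cop T (∏ q ∈ P, q) ∧ lbl T (∏ q ∈ P, q) = ∑ q ∈ P, lbl T q :=
  L.lbl_prod P fun q hq => (L.toTS.prime_cop (pos_of L' hP q hq).1).2 (pos_of L' hP q hq).2.2

include L' L in
theorem Ml.lbl_Mg (γ : Option T' → ZMod 2) (m : ℳ) :
    lbl T (∏ q ∈ Mu.Mg γ m, q) = lbl T (∏ q ∈ Qs T γ, q) := by
  rw [(lbl_sum L' L (Mu.Mg_sub γ m)).2, (lbl_sum L' L (Qs_sub γ)).2]
  unfold Ml.Mg
  rw [sum_sd, ← (lbl_sum L' L (Mu.sub m)).2, Mu.lb m, add_zero]

end Q44.JQ.M
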